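import Pool.Agent.W940.LSD.Stm

set_option autoImplicit false

namespace Pool.Agent.W7.LSD

open Finset Filter Pool.Agent.W307.LS Pool.Agent.W940.LSD

open scoped Classical

/-- number of multiples in an interval -/
lemma count (A : ℤ) (N d : ℕ) (hd : 0 < d) :
    |(∑ n ∈ Ico A (A + N), (if (d : ℤ) ∣ n then (1 : ℝ) else 0)) - (N : ℝ) / d| ≤ 1 := by
  have hcard : (∑ n ∈ Ico A (A + N), (if (d : ℤ) ∣ n then (1 : ℝ) else 0)) =
      (((Ico A (A + N)).filter (fun n => (d : ℤ) ∣ n)).card : ℝ) := by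
    rw [Finset.sum_boole]
  have h := Int.Ico_filter_dvd_card A (A + N) (r := (d : ℤ)) (by exact_mod_cast hd)
  have hdR : (0 : ℚ) < (d : ℚ) := by exact_mod_cast hd
  have e0 : (((A + N : ℤ) : ℚ)) / ((d : ℤ) : ℚ) = (A : ℚ) / ((d : ℤ) : ℚ) + (N : ℚ) / d := by
    push_cast
    rw [add_div]
  rw [e0] at h
  set u : ℚ := (A : ℚ) / ((d : ℤ) : ℚ) with hu
  set w : ℚ := (N : ℚ) / d with hw
  have hw0 : 0 ≤ w := by positivity
  have h1 := Int.ceil_lt_add_one (u + w)
  have h2 := Int.le_ceil (u + w)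
  have h3 := Int.ceil_lt_add_one u
  have h4 := Int.le_ceil u
  have hmono : ⌈u⌉ ≤ ⌈u + w⌉ := Int.ceil_mono (by linarith)
  have hq : ((((Ico A (A + N)).filter (fun n => (d : ℤ) ∣ n)).card : ℤ) : ℚ) =
      (⌈u + w⌉ : ℚ) - (⌈u⌉ : ℚ) := by
    rw [h, max_eq_left (by omega)]
    push_cast
    ring
  have hq' : |((((Ico A (A + N)).filter (fun n => (d : ℤ) ∣ n)).card : ℤ) : ℚ) - w| ≤ 1 := by
    rw [hq, abs_le]
    constructor <;> linarith
  have hfin : |((((Ico A (A + N)).filter (fun n => (d : ℤ) ∣ n)).card : ℝ)) - (N : ℝ) / d| ≤ 1 := by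
    have := (Rat.cast_le (K := ℝ)).2 hq'
    push_cast [hw] at this
    exact this
  rw [hcard]
  exact hfin

/-- the centred indicator -/
noncomputable def cc (p : ℕ) (n : ℤ) : ℝ := (if (p : ℤ) ∣ n then (1 : ℝ) else 0) - 1 / p

lemma ww_sub (y : ℕ) (n : ℤ) : (ww y n : ℝ) - LL y = ∑ p ∈ PP y, cc p n := by
  unfold ww LL cc
  rw [Finset.sum_sub_distrib, Finset.sum_boole]

lemma PP_prime {y p : ℕ} (h : p ∈ PP y) : p.Prime := by
  unfold PP at h
  exact (Finset.mem_filter.1 h).2.1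

lemma PP_card (y : ℕ) : (PP y).card ≤ y := by
  have hsub : PP y ⊆ Finset.Icc 1 y := by
    intro p hp
    have h1 := PP_prime hp
    unfold PP at hp
    have h2 := (Finset.mem_filter.1 hp).1
    rw [Finset.mem_range] at h2
    rw [Finset.mem_Icc]
    exact ⟨h1.one_lt.le, by omega⟩
  have := Finset.card_le_card hsub
  simpa using this

lemma pair_le {y p q : ℕ} (hp : p ∈ PP y) (hq : q ∈ PP y) (A : ℤ) (N : ℕ) :
    ∑ n ∈ Ico A (A + N), cc p n * cc q n ≤ (if p = q then (N : ℝ) / p else 0) + 2 := by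
  have hpp := PP_prime hp
  have hqp := PP_prime hq
  have hp0 : 0 < p := hpp.pos
  have hq0 : 0 < q := hqp.pos
  have hp2 : (2 : ℝ) ≤ p := by exact_mod_cast hpp.two_le
  have hq2 : (2 : ℝ) ≤ q := by exact_mod_cast hqp.two_le
  have cp := count A N p hp0
  have cq := count A N q hq0
  set Sp := ∑ n ∈ Ico A (A + N), (if (p : ℤ) ∣ n then (1 : ℝ) else 0) with hSp
  set Sq := ∑ n ∈ Ico A (A + N), (if (q : ℤ) ∣ n then (1 : ℝ) else 0) with hSq
  have hcN : ∑ n ∈ Ico A (A + N), (1 : ℝ) = N := by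
    simp
  have hexp : ∑ n ∈ Ico A (A + N), cc p n * cc q n =
      (∑ n ∈ Ico A (A + N), (if (p : ℤ) ∣ n then (1 : ℝ) else 0) *
        (if (q : ℤ) ∣ n then (1 : ℝ) else 0)) - Sp * (1 / q) - Sq * (1 / p)
        + (N : ℝ) * (1 / p * (1 / q)) := by
    rw [← hcN, hSp, hSq, Finset.sum_mul, Finset.sum_mul, Finset.sum_mul,
      ← Finset.sum_sub_distrib, ← Finset.sum_sub_distrib, ← Finset.sum_add_distrib]
    refine Finset.sum_congr rfl fun n _ => ?_
    unfold cc
    ring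
  rw [hexp]
  by_cases hpq : p = q
  · subst hpq
    have e : ∑ n ∈ Ico A (A + N), (if (p : ℤ) ∣ n then (1 : ℝ) else 0) *
        (if (p : ℤ) ∣ n then (1 : ℝ) else 0) = Sp := by
      refine Finset.sum_congr rfl fun n _ => ?_
      split_ifs <;> simp
    rw [e, if_pos rfl]
    have e2 : Sq = Sp := rfl
    rw [abs_le] at cp
    have hinv : (1 : ℝ) / p ≤ 1 / 2 := by
      apply one_div_le_one_div_of_le <;> linarith
    have hinv0 : (0 : ℝ) < 1 / p := by positivity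
    have hN : (0 : ℝ) ≤ N := Nat.cast_nonneg N
    have eN : (N : ℝ) / p = N * (1 / p) := by ring
    rw [eN] at cp ⊢
    set t : ℝ := 1 / p with ht
    have h1 : Sp ≤ N * t + 1 := by linarith [cp.2]
    have h2 : Sp * (1 - 2 * t) ≤ (N * t + 1) * (1 - 2 * t) :=
      mul_le_mul_of_nonneg_right h1 (by linarith)
    nlinarith [mul_nonneg hN (mul_nonneg hinv0.le hinv0.le)]
  · rw [if_neg hpq, zero_add]
    have hcop : Nat.Coprime p q := (Nat.coprime_primes hpp hqp).2 hpq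
    have e : ∑ n ∈ Ico A (A + N), (if (p : ℤ) ∣ n then (1 : ℝ) else 0) *
        (if (q : ℤ) ∣ n then (1 : ℝ) else 0) =
        ∑ n ∈ Ico A (A + N), (if ((p * q : ℕ) : ℤ) ∣ n then (1 : ℝ) else 0) := by
      refine Finset.sum_congr rfl fun n _ => ?_
      have hiff : (((p * q : ℕ) : ℤ) ∣ n) ↔ ((p : ℤ) ∣ n ∧ (q : ℤ) ∣ n) := by
        constructor
        · intro h
          push_cast at h
          exact ⟨dvd_trans (dvd_mul_right _ _) h, dvd_trans (dvd_mul_left _ _) h⟩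
        · rintro ⟨h1, h2⟩
          push_cast
          exact IsCoprime.mul_dvd (Nat.isCoprime_iff_coprime.2 hcop) h1 h2
      push_cast at hiff ⊢
      by_cases h1 : (p : ℤ) ∣ n <;> by_cases h2 : (q : ℤ) ∣ n <;> simp [hiff, h1, h2]
    rw [e]
    have cpq := count A N (p * q) (Nat.mul_pos hp0 hq0)
    rw [abs_le] at cp cq cpq
    have epq : (N : ℝ) / ((p * q : ℕ) : ℝ) = N * ((1 / p) * (1 / q)) := by
      push_cast
      field_simp
    have eNp : (N : ℝ) / p = N * (1 / p) := by ring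
    have eNq : (N : ℝ) / q = N * (1 / q) := by ring
    rw [epq] at cpq
    rw [eNp] at cp
    rw [eNq] at cq
    have hpinv : (1 : ℝ) / p ≤ 1 / 2 := by
      apply one_div_le_one_div_of_le <;> linarith
    have hpinv0 : (0 : ℝ) < 1 / p := by positivity
    have hqinv : (1 : ℝ) / q ≤ 1 / 2 := by
      apply one_div_le_one_div_of_le <;> linarith
    have hqinv0 : (0 : ℝ) < 1 / q := by positivity
    set t : ℝ := 1 / p with ht
    set u : ℝ := 1 / q with hu
    have h1 : (N * t - 1) * u ≤ Sp * u := mul_le_mul_of_nonneg_right (by linarith [cp.1]) hqinv0.le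
    have h2 : (N * u - 1) * t ≤ Sq * t := mul_le_mul_of_nonneg_right (by linarith [cq.1]) hpinv0.le
    nlinarith [cpq.2]

theorem tur : TUR := by
  intro y A N
  have h1 : ∑ n ∈ Ico A (A + N), ((ww y n : ℝ) - LL y) ^ 2 =
      ∑ p ∈ PP y, ∑ q ∈ PP y, ∑ n ∈ Ico A (A + N), cc p n * cc q n := by
    have : ∀ n ∈ Ico A (A + (N : ℤ)), ((ww y n : ℝ) - LL y) ^ 2 =
        ∑ p ∈ PP y, ∑ q ∈ PP y, cc p n * cc q n := by
      intro n _
      rw [ww_sub, sq, Finset.sum_mul_sum]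
    rw [Finset.sum_congr rfl this, Finset.sum_comm]
    refine Finset.sum_congr rfl fun p _ => ?_
    rw [Finset.sum_comm]
  rw [h1]
  have h2 : ∑ p ∈ PP y, ∑ q ∈ PP y, ∑ n ∈ Ico A (A + N), cc p n * cc q n ≤
      ∑ p ∈ PP y, ∑ q ∈ PP y, ((if p = q then (N : ℝ) / p else 0) + 2) :=
    Finset.sum_le_sum fun p hp => Finset.sum_le_sum fun q hq => pair_le hp hq A N
  have h3 : ∑ p ∈ PP y, ∑ q ∈ PP y, ((if p = q then (N : ℝ) / p else 0) + 2) =
      N * LL y + 2 * ((PP y).card : ℝ) ^ 2 := by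
    have : ∀ p ∈ PP y, ∑ q ∈ PP y, ((if p = q then (N : ℝ) / p else 0) + 2) =
        N * (1 / (p : ℝ)) + 2 * (PP y).card := by
      intro p hp
      rw [Finset.sum_add_distrib, Finset.sum_ite_eq, if_pos hp, Finset.sum_const, nsmul_eq_mul]
      ring
    rw [Finset.sum_congr rfl this, Finset.sum_add_distrib, ← Finset.mul_sum, Finset.sum_const,
      nsmul_eq_mul]
    unfold LL
    ring
  have hLL : 0 ≤ LL y := Finset.sum_nonneg fun p _ => by positivity
  have hcard : ((PP y).card : ℝ) ≤ y := by exact_mod_cast PP_card y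
  have hc0 : (0 : ℝ) ≤ (PP y).card := Nat.cast_nonneg _
  have hN : (0 : ℝ) ≤ N := Nat.cast_nonneg N
  have hsq : ((PP y).card : ℝ) ^ 2 ≤ (y : ℝ) ^ 2 := pow_le_pow_left₀ hc0 hcard 2
  have := mul_nonneg hN hLL
  nlinarith [sq_nonneg (y : ℝ)]

end Pool.Agent.W7.LSD
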